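import Pool.Agent.H67.ST.M.mmm_LL_0
import Pool.Agent.H67.ST.M.mmm_LL_1
import Pool.Agent.H67.ST.M.mmm_UR_0
import Pool.Agent.H67.ST.M.mmm_UR_1
import Pool.Agent.H67.ST.M.mmp_LR_0
import Pool.Agent.H67.ST.M.mmp_LR_1
import Pool.Agent.H67.ST.M.mmp_UL_0
import Pool.Agent.H67.ST.M.mmp_UL_1
import Pool.Agent.H67.ST.M.mpm_LL_0
import Pool.Agent.H67.ST.M.mpm_LL_1
import Pool.Agent.H67.ST.M.mpm_UR_0
import Pool.Agent.H67.ST.M.mpm_UR_1
import Pool.Agent.H67.ST.M.mpp_LR_0
import Pool.Agent.H67.ST.M.mpp_LR_1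
import Pool.Agent.H67.ST.M.mpp_UL_0
import Pool.Agent.H67.ST.M.mpp_UL_1

/-!
# No single tie with `ep = -1`, `d < h < w`
-/

namespace Pool.Agent.H67.ST

open Pool.Agent.H78.RT
open Pool.Agent.H78.Tie
open Pool.Agent.H78.Tie.TAp

variable {A : TAp}

/-- there is no single tie with `ep = -1` and `d < h < w` -/
theorem no_m (T : A.Tie) (F : A.Fl) (hs : T.Single) (ht : T.t ≠ 1) (hx0 : T.x ≠ 0)
    (hx1 : |T.x| < A.h) (hd : A.md < A.h) (hw : A.h < A.w) (he : T.ep = -1) : False := by
  obtain ⟨ep, sp, xs, l, θ₁, S₁, θ₂, S₂, U₂, hl, hx, c, hp, hm, -, -⟩ :=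
    exists_Cz T F hs ht hx0 hx1 hd hw
  obtain ⟨θ₃, U₃, c4⟩ := exists_C4 hw c
  obtain ⟨θ₄, U₄, c5⟩ := exists_C4' hw c
  have hsg := c.hsg
  have hep := c.he
  cases ep
  swap
  · rw [he] at hep
    exact absurd hep (by decide)
  have hp' := fun h => hp he h
  have hm' := fun h => hm he h
  clear hp hm
  rw [hsg] at hp' hm'
  cases sp
  · cases xs
    · simp only [sv] at hx hp' hm'
      rcases hm' (by omega) with ⟨b1, b2, b3⟩ | ⟨b1, b2, b3⟩
      · rcases hl with rfl | rfl
        · exact mmm_UR_0_f c5 (by linarith) (by linarith) (by linarith)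
        · exact mmm_UR_1_f c4 (by linarith) (by linarith) (by linarith)
      · rcases hl with rfl | rfl
        · exact mmm_LL_0_f c5 (by linarith) (by linarith) (by linarith)
        · exact mmm_LL_1_f c4 (by linarith) (by linarith) (by linarith)
    · simp only [sv] at hx hp' hm'
      rcases hp' (by omega) with ⟨b1, b2, b3⟩ | ⟨b1, b2, b3⟩
      · rcases hl with rfl | rfl
        · exact mmp_UL_0_f c4 (by linarith) (by linarith) (by linarith)
        · exact mmp_UL_1_f c4 (by linarith) (by linarith) (by linarith)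
      · rcases hl with rfl | rfl
        · exact mmp_LR_0_f c5 (by linarith) (by linarith) (by linarith)
        · exact mmp_LR_1_f c4 (by linarith) (by linarith) (by linarith)
  · cases xs
    · simp only [sv] at hx hp' hm'
      rcases hm' (by omega) with ⟨b1, b2, b3⟩ | ⟨b1, b2, b3⟩
      · rcases hl with rfl | rfl
        · exact mpm_UR_0_f c5 (by linarith) (by linarith) (by linarith)
        · exact mpm_UR_1_f c5 (by linarith) (by linarith) (by linarith)
      · rcases hl with rfl | rfl
        · exact mpm_LL_0_f c4 (by linarith) (by linarith) (by linarith)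
        · exact mpm_LL_1_f c5 (by linarith) (by linarith) (by linarith)
    · simp only [sv] at hx hp' hm'
      rcases hp' (by omega) with ⟨b1, b2, b3⟩ | ⟨b1, b2, b3⟩
      · rcases hl with rfl | rfl
        · exact mpp_UL_0_f c5 (by linarith) (by linarith) (by linarith)
        · exact mpp_UL_1_f c4 (by linarith) (by linarith) (by linarith)
      · rcases hl with rfl | rfl
        · exact mpp_LR_0_f c4 (by linarith) (by linarith) (by linarith)
        · exact mpp_LR_1_f c4 (by linarith) (by linarith) (by linarith)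

end Pool.Agent.H67.ST
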