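import Pool.Agent.H67.ST.FinP
import Pool.Agent.H67.ST.FinM

/-!
# No single tie with `d < h < w`
-/

namespace Pool.Agent.H67.ST

open Pool.Agent.H78.Tie
open Pool.Agent.H78.Tie.TAp

/-- there is no single tie with `d < h < w` -/
theorem no_hw {A : TAp} (T : A.Tie) (F : A.Fl) (hs : T.Single) (ht : T.t ≠ 1) (hx0 : T.x ≠ 0)
    (hx1 : |T.x| < A.h) (hd : A.md < A.h) (hw : A.h < A.w) : False := by
  rcases T.hep with h | h
  · exact no_p T F hs ht hx0 hx1 hd hw h
  · exact no_m T F hs ht hx0 hx1 hd hw h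

end Pool.Agent.H67.ST
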