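import Pool.Agent.H78.RT.Inst
import Pool.Agent.H67.NO.Glue

/-!
# Single ties: the interface to the checker

Environments `[N, W, H, D, X, T, θ, S, U, q]` (class `i`) and
`[N, W, H, D, X, T, θ, S, U, θ', U', q]` (class `i` and a class of a given row).
-/

namespace Pool.Agent.H67.ST

open Pool.Agent.H78.RT
open Pool.Agent.H78.Tie
open Pool.Agent.H78.Tie.TAp
open Pool.Agent.H81.AP (LF dot dot_nil dot_nil' dot_cons AllNn AllNe)

/-- `true` for `1`, `false` for `-1` -/
def sv (b : Bool) : Int := match b with | true => 1 | false => -1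

theorem sv_or (b : Bool) : sv b = 1 ∨ sv b = -1 := by cases b <;> simp [sv]

/-- record of the tie `t` -/
def rT (ep sg : Int) : LR := ⟨[ep * sg, 0, ep], [0, 0, -ep, 0, 0, ep], [0, 0, 0, 0, 0, 0, 1]⟩

/-- record of the class `i` -/
def rI : LR := ⟨[0, 0, 0, 0, 0, 0, 0, 0, 0, 1], [0, 0, 0, 0, 0, 0, 0, 0, 1], [0, 0, 0, 0, 0, 0, 0, 1]⟩

/-- record of a class of row `l` -/
def rK (l : LF) : LR := ⟨[0, 0, 0, 0, 0, 0, 0, 0, 0, 0, 0, 1], l, [0, 0, 0, 0, 0, 0, 0, 0, 0, 0, 1]⟩

/-- record of the index `p` -/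
def rP : LR := ⟨[0, 0, 0, 0, 1], [], [0, 0, 0, 0, 1]⟩

/-- `- F - q` when the last entry of `F` is the coefficient of `q` -/
def ngq : LF → LF
  | [] => []
  | [a] => [-a - 1]
  | a :: l => -a :: ngq l

def clq (F : LF) : List LF := [F, ngq F]

/-- static data of a tree -/
def mkS (ep sp : Bool) (J : List LR) (g ne Q : List LF) : Dat where
  sp := sp
  ov := false
  L := match ep with
    | true => ⟨none, some [0, 0, 0, 0, 0, 0, 1]⟩
    | false => ⟨some [0, 0, 0, 0, 1, 0, -1], none⟩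
  R := match ep with
    | true => ⟨some [0, 0, 0, 0, 1, 0, -1], none⟩
    | false => ⟨none, some [0, 0, 0, 0, 0, 0, 1]⟩
  B := rT (sv ep) (sv sp) :: (J ++ [rP])
  C := rT (sv ep) (sv sp) :: J
  N := ne
  O := Q.map clq
  E := []
  G := g

variable {A : TAp} {T : A.Tie}

theorem AllC.toB {v : List ℤ} : ∀ {l : List LR}, AllC A v l → AllB A v l
  | [], _ => trivial
  | _ :: _, h => ⟨⟨h.1.choose, h.1.choose_spec.1⟩, AllC.toB h.2⟩

theorem AllB.append {v : List ℤ} : ∀ {l l' : List LR}, AllB A v l → AllB A v l' →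
    AllB A v (l ++ l')
  | [], _, _, h => h
  | _ :: _, _, h, h' => ⟨h.1, AllB.append h.2 h'⟩

/-- soundness of a tree -/
theorem run (F : A.Fl) (hs : T.Single) {ep sp : Bool} (he : T.ep = sv ep) (hsg : A.sg = sv sp)
    {J : List LR} {g ne Q : List LF} {r : List ℤ} {X : ℤ} (hX : X = A.q * T.x)
    (hJ : AllC A (NN A :: A.q * A.w :: A.q * A.h :: A.D :: X :: th A T.t :: r) J)
    (hN : AllNe (NN A :: A.q * A.w :: A.q * A.h :: A.D :: X :: th A T.t :: r) ne)
    (hO : AllO (NN A :: A.q * A.w :: A.q * A.h :: A.D :: X :: th A T.t :: r) (Q.map clq))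
    (hG : AllNn (NN A :: A.q * A.w :: A.q * A.h :: A.D :: X :: th A T.t :: r) g)
    {t : Pool.Agent.H78.RT.T} (h : (mkS ep sp J g ne Q).chk t = true) : False := by
  have hp := A.p_pos'
  have hD := th_eq A T.t
  have hDp : A.D * (A.p - T.t) = A.p * (A.D - th A T.t) := by rw [mul_sub, hD]; ring
  have hrT : (rT (sv ep) (sv sp)).Cl A (NN A :: A.q * A.w :: A.q * A.h :: A.D :: X ::
      th A T.t :: r) T.t := by
    refine ⟨?_, T.t0, T.tp⟩
    have h1 := Rec.tie T
    rw [he, hsg] at h1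
    convert h1 using 1
    · simp only [rT, dot_cons, dot_nil]; ring
    · simp only [rT, dot_cons, dot_nil]; rw [hX]; ring
    · simp only [rT, dot_cons, dot_nil]; ring
  have hrP : rP.Ok A (NN A :: A.q * A.w :: A.q * A.h :: A.D :: X :: th A T.t :: r) A.p := by
    have h1 := Rec.P A
    unfold LR.Ok
    convert h1 using 1
    · simp only [rP, dot_cons, dot_nil]; ring
    · simp only [rP, dot_nil]
    · simp only [rP, dot_cons, dot_nil]; ring
  have e1 : A.D * T.t = A.p * dot [0, 0, 0, 0, 0, 0, 1] (1 :: NN A :: A.q * A.w :: A.q * A.h ::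
      A.D :: X :: th A T.t :: r) := by
    simp only [dot_cons, dot_nil]; linarith
  have e2 : A.D * (A.p - T.t) = A.p * dot [0, 0, 0, 0, 1, 0, -1] (1 :: NN A :: A.q * A.w ::
      A.q * A.h :: A.D :: X :: th A T.t :: r) := by
    simp only [dot_cons, dot_nil]; linarith
  cases ep
  · have he' : T.ep = -1 := he
    refine Pool.Agent.H78.RT.run (PL := T.FreeL) (PR := T.FreeR) F (ruleF F T hs)
      (mkS false sp J g ne Q) ⟨_, rfl⟩ ?_ (lL := some (A.p - T.t)) (hL := none) (lR := none)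
      (hR := some T.t) e2 trivial trivial e1 ?_ ?_ ?_ ?_ hN hO (by intro h; cases h) hG h
    · rw [hsg]; cases sp <;> rfl
    · intro j h1 _
      have := h1 _ rfl
      exact Or.inr ⟨he', by omega⟩
    · intro j _ h1
      exact Or.inr ⟨he', h1 _ rfl⟩
    · exact ⟨⟨_, hrT.1⟩, AllB.append (AllC.toB hJ) ⟨⟨_, hrP⟩, trivial⟩⟩
    · exact ⟨⟨_, hrT⟩, hJ⟩
  · have he' : T.ep = 1 := he
    refine Pool.Agent.H78.RT.run (PL := T.FreeL) (PR := T.FreeR) F (ruleF F T hs)
      (mkS true sp J g ne Q) ⟨_, rfl⟩ ?_ (lL := none) (hL := some T.t) (lR := some (A.p - T.t))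
      (hR := none) trivial e1 e2 trivial ?_ ?_ ?_ ?_ hN hO (by intro h; cases h) hG h
    · rw [hsg]; cases sp <;> rfl
    · intro j _ h1
      exact Or.inl ⟨he', h1 _ rfl⟩
    · intro j h1 _
      have := h1 _ rfl
      exact Or.inl ⟨he', by omega⟩
    · exact ⟨⟨_, hrT.1⟩, AllB.append (AllC.toB hJ) ⟨⟨_, hrP⟩, trivial⟩⟩
    · exact ⟨⟨_, hrT⟩, hJ⟩

/-! ### clauses -/

theorem dvd_ngq (q : ℤ) : ∀ (F : LF) (w : List ℤ), F.length = w.length → w.getLast? = some q →
    dot (ngq F) w = - dot F w - q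
  | [], w, h, h' => by
    rw [List.length_nil] at h
    rw [List.length_eq_zero_iff.1 h.symm] at h'
    simp at h'
  | [a], w, h, h' => by
    match w, h, h' with
    | [b], _, h' =>
      have : b = q := by simpa using h'
      subst this
      simp only [ngq, dot_cons, dot_nil]; ring
  | a :: b :: l, w, h, h' => by
    match w, h, h' with
    | c :: d :: m, h, h' =>
      have h1 := dvd_ngq q (b :: l) (d :: m) (by simpa using h) (by simpa using h')
      have e : ngq (a :: b :: l) = -a :: ngq (b :: l) := rfl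
      rw [e, dot_cons, dot_cons, h1]; ring

/-- the forms `F` with `q ∣ F`, short environment -/
def ok9 (es : Int) (F : LF) : Bool :=
  match F with
  | [c, _, _, _, d, _, t, o, _, u, _] => decide (c + t * es = 0) && decide (d = 0) &&
      decide (o + u = 0)
  | _ => false

/-- the forms `F` with `q ∣ F`, long environment -/
def ok11 (es : Int) (F : LF) : Bool :=
  match F with
  | [c, _, _, _, d, _, t, o, _, u, o', u', _] => decide (c + t * es = 0) && decide (d = 0) &&
      decide (o + u = 0) && decide (o' + u' = 0)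
  | _ => false

theorem ok9_sound {es : Int} {F : LF} (h : ok9 es F = true) {q N W H D X Tt th S U : ℤ}
    (hN : q ∣ N) (hW : q ∣ W) (hH : q ∣ H) (hX : q ∣ X) (hT : q ∣ Tt - es) (hS : q ∣ S)
    (hU : q ∣ U - th) : q ∣ dot F [1, N, W, H, D, X, Tt, th, S, U, q] ∧ F.length = 11 := by
  unfold ok9 at h
  split at h
  · rename_i c n w h' d x t o s u qq
    simp only [Bool.and_eq_true, decide_eq_true_eq] at h
    obtain ⟨⟨h1, h2⟩, h3⟩ := h
    refine ⟨?_, rfl⟩
    obtain ⟨n1, rfl⟩ := hN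
    obtain ⟨w1, rfl⟩ := hW
    obtain ⟨h1', rfl⟩ := hH
    obtain ⟨x1, rfl⟩ := hX
    obtain ⟨t1, ht⟩ := hT
    obtain ⟨s1, rfl⟩ := hS
    obtain ⟨u1, hu⟩ := hU
    simp only [dot_cons, dot_nil]
    refine ⟨n * n1 + w * w1 + h' * h1' + x * x1 + t * t1 + s * s1 + u * u1 + qq, ?_⟩
    linear_combination h1 + D * h2 + th * h3 + t * ht + u * hu
  · cases h

theorem ok11_sound {es : Int} {F : LF} (h : ok11 es F = true) {q N W H D X Tt th S U th' U' : ℤ}
    (hN : q ∣ N) (hW : q ∣ W) (hH : q ∣ H) (hX : q ∣ X) (hT : q ∣ Tt - es) (hS : q ∣ S)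
    (hU : q ∣ U - th) (hU' : q ∣ U' - th') :
    q ∣ dot F [1, N, W, H, D, X, Tt, th, S, U, th', U', q] ∧ F.length = 13 := by
  unfold ok11 at h
  split at h
  · rename_i c n w h' d x t o s u o' u' qq
    simp only [Bool.and_eq_true, decide_eq_true_eq] at h
    obtain ⟨⟨⟨h1, h2⟩, h3⟩, h4⟩ := h
    refine ⟨?_, rfl⟩
    obtain ⟨n1, rfl⟩ := hN
    obtain ⟨w1, rfl⟩ := hW
    obtain ⟨h1', rfl⟩ := hH
    obtain ⟨x1, rfl⟩ := hX
    obtain ⟨t1, ht⟩ := hT
    obtain ⟨s1, rfl⟩ := hS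
    obtain ⟨u1, hu⟩ := hU
    obtain ⟨v1, hv⟩ := hU'
    simp only [dot_cons, dot_nil]
    refine ⟨n * n1 + w * w1 + h' * h1' + x * x1 + t * t1 + s * s1 + u * u1 + u' * v1 + qq, ?_⟩
    linear_combination h1 + D * h2 + th * h3 + t * ht + u * hu + th' * h4 + u' * hv
  · cases h

theorem allO_of {q : ℤ} (hq : 0 < q) {v : List ℤ} (hv : (1 :: v).getLast? = some q) :
    ∀ {Q : List LF}, (∀ F ∈ Q, q ∣ dot F (1 :: v) ∧ F.length = (1 :: v).length) →
    AllO v (Q.map clq)
  | [], _ => trivial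
  | F :: Q, h => by
    refine ⟨?_, allO_of hq hv fun G hG => h G (List.mem_cons_of_mem _ hG)⟩
    obtain ⟨⟨z, hz⟩, h2⟩ := h F List.mem_cons_self
    have h3 := dvd_ngq q F (1 :: v) h2 hv
    show AnyNn v [F, ngq F]
    rcases lt_or_ge (dot F (1 :: v)) 0 with h4 | h4
    · right; left
      rw [h3, hz]
      rw [hz] at h4
      have : z < 0 := by
        by_contra hc
        have := mul_nonneg hq.le (not_lt.1 hc)
        omega
      have : q * z ≤ q * (-1) := mul_le_mul_of_nonneg_left (by omega) hq.le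
      omega
    · left; exact h4

end Pool.Agent.H67.ST
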