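import Pool.Agent.H67.ST.Base

/-!
# Single ties, `d < h < w`: context of an overlapping class
-/

namespace Pool.Agent.H67.ST

open Pool.Agent.H78.RT
open Pool.Agent.H78.Tie
open Pool.Agent.H78.Tie.TAp
open Pool.Agent.H81.AP (LF dot dot_nil dot_nil' dot_cons AllNn AllNe)

/-- context of an overlapping class `i` (scaled variables), `d < h < w` -/
structure Cx (A : TAp) (T : A.Tie) (ep sp xs : Bool) (i N W H D X Tt θ S U q : ℤ) : Prop where
  F : A.Fl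
  hs : T.Single
  he : T.ep = sv ep
  hsg : A.sg = sv sp
  eN : N = NN A
  eW : W = A.q * A.w
  eH : H = A.q * A.h
  eD : D = A.D
  eX : X = A.q * T.x
  eT : Tt = th A T.t
  eth : θ = th A i
  eq : q = A.q
  c : IsC A i U S θ
  S0 : q ∣ S
  ne1 : θ ≠ Tt
  ne2 : θ ≠ D - Tt
  f1 : 6 ≤ q
  f2 : 2 * q ≤ W
  f3 : 2 * q ≤ H
  f4 : 2 * W + q ≤ N
  f5 : 2 * H + q ≤ N
  f6 : 2 * D + 2 ≤ N + q
  f7 : q + sv ep * sv sp ≤ Tt
  f8 : Tt < D
  f9 : 0 < θ
  f10 : θ < D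
  f11 : -W < U
  f12 : U < W
  f13 : -H < U + S
  f14 : U + S < H
  f15 : D < H
  f16 : H + q ≤ W
  f17 : q ≤ sv xs * X
  f18 : sv xs * X + q ≤ H
  hp1 : ¬ (A.p : ℤ) ∣ T.x

/-- the forms which are not zero: `θ - T`, `θ + T - D` -/
def ne9 : List LF := [[0, 0, 0, 0, 0, 0, -1, 1], [0, 0, 0, 0, -1, 0, 1, 1]]

variable {A : TAp} {T : A.Tie} {ep sp xs : Bool} {i N W H D X Tt θ S U q : ℤ}

theorem Cx.qd (c : Cx A T ep sp xs i N W H D X Tt θ S U q) :
    0 < q ∧ q ∣ N ∧ q ∣ W ∧ q ∣ H ∧ q ∣ X ∧ q ∣ Tt - sv ep * sv sp ∧ q ∣ S ∧ q ∣ U - θ := by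
  have e := c.eq
  refine ⟨by have := c.f1; omega, ?_, ?_, ?_, ?_, ?_, c.S0, ?_⟩
  · rw [c.eN, e]; exact ⟨A.p, by unfold NN; ring⟩
  · rw [c.eW, e]; exact ⟨_, rfl⟩
  · rw [c.eH, e]; exact ⟨_, rfl⟩
  · rw [c.eX, e]; exact ⟨_, rfl⟩
  · have h1 := (Rec.tie T).mod
    have h2 : (A.q : ℤ) ∣ T.ep * (A.q * A.w) := (dvd_mul_right _ _).mul_left _
    have h3 := dvd_sub h2 h1
    rw [c.eT, e, ← c.he, ← c.hsg]
    rwa [show T.ep * (A.q * A.w) - (T.ep * (A.q * A.w + A.sg) - th A T.t)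
      = th A T.t - T.ep * A.sg by ring] at h3
  · rw [e]; exact c.c.1.mod

/-- a tree with the classes `t`, `i` -/
theorem Cx.run9 (c : Cx A T ep sp xs i N W H D X Tt θ S U q) {g Q : List LF}
    (hQ : Q.all (ok9 (sv ep * sv sp)) = true) (hG : AllNn [N, W, H, D, X, Tt, θ, S, U, q] g)
    {t : Pool.Agent.H78.RT.T} (h : (mkS ep sp [rI] g ne9 Q).chk t = true) : False := by
  obtain ⟨q0, dN, dW, dH, dX, dT, dS, dU⟩ := c.qd
  have hO : AllO [N, W, H, D, X, Tt, θ, S, U, q] (Q.map clq) := by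
    refine allO_of q0 (by rfl) fun F hF => ?_
    exact ok9_sound (List.all_eq_true.1 hQ F hF) dN dW dH dX dT dS dU
  have hN : AllNe [N, W, H, D, X, Tt, θ, S, U, q] ne9 := by
    have n1 := c.ne1
    have n2 := c.ne2
    refine ⟨?_, ?_, trivial⟩
    · simp only [dot_cons, dot_nil]; omega
    · simp only [dot_cons, dot_nil]; omega
  have hJ : AllC A [N, W, H, D, X, Tt, θ, S, U, q] [rI] := by
    refine ⟨⟨i, ?_, c.c.2⟩, trivial⟩
    have h1 := c.c.1
    convert h1 using 1 <;> simp only [rI, dot_cons, dot_nil] <;> ring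
  have eN := c.eN
  have eW := c.eW
  have eH := c.eH
  have eD := c.eD
  have eX := c.eX
  have eT := c.eT
  subst eN eW eH eD eT
  exact run c.F c.hs c.he c.hsg eX hJ hN hO hG h

/-- a class of row `c` -/
theorem exRow (A : TAp) {c : ℤ} (hc : ¬ (A.p : ℤ) ∣ c) :
    ∃ j U, IsC A j U (A.q * c) (th A j) ∧ -NN A ≤ 2 * U ∧ 2 * U ≤ NN A := by
  have hp := A.p_pos'
  have h0 := Int.emod_nonneg (A.e' * c) hp.ne'
  have h1 := Int.emod_lt_of_pos (A.e' * c) hp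
  have he := Int.emod_add_mul_ediv (A.e' * c) A.p
  have hr : (A.p : ℤ) ∣ A.e * (A.e' * c % A.p) - c := by
    obtain ⟨y, hy⟩ := A.inv
    exact ⟨c * y - A.e * (A.e' * c / A.p), by linear_combination c * hy + A.e * he⟩
  have j0 : 0 < A.e' * c % (A.p : ℤ) := by
    rcases lt_or_eq_of_le h0 with h | h
    · exact h
    · exfalso
      rw [← h, mul_zero, zero_sub, dvd_neg] at hr
      exact hc hr
  have hN : 0 < NN A := NN_pos A
  have a0 := Int.emod_nonneg (A.a * (A.e' * c % A.p)) hN.ne'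
  have a1 := Int.emod_lt_of_pos (A.a * (A.e' * c % A.p)) hN
  have ae := Int.emod_add_mul_ediv (A.a * (A.e' * c % A.p)) (NN A)
  by_cases h2 : 2 * (A.a * (A.e' * c % A.p) % NN A) ≤ NN A
  · refine ⟨A.e' * c % A.p, A.a * (A.e' * c % A.p) % NN A,
      ⟨Rec.of ⟨A.a * (A.e' * c % A.p) / NN A, ?_⟩ hr, j0, h1⟩, by omega, h2⟩
    linarith
  · refine ⟨A.e' * c % A.p, A.a * (A.e' * c % A.p) % NN A - NN A,
      ⟨Rec.of ⟨A.a * (A.e' * c % A.p) / NN A + 1, ?_⟩ hr, j0, h1⟩, by omega, by omega⟩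
    rw [mul_add, mul_one]
    linarith

/-- a tree with the classes `t`, `i` and a class of row `c0` -/
theorem Cx.run11 (c : Cx A T ep sp xs i N W H D X Tt θ S U q) (l : LF) {c0 : ℤ}
    (hc0 : ¬ (A.p : ℤ) ∣ c0)
    (hl : ∀ θ1 U', dot l (1 :: [N, W, H, D, X, Tt, θ, S, U, θ1, U', q]) = q * c0)
    {g Q : List LF} (hQ : Q.all (ok11 (sv ep * sv sp)) = true)
    (hG : ∀ θ1 U', 0 < θ1 → θ1 < D → -N ≤ 2 * U' → 2 * U' ≤ N →
      AllNn [N, W, H, D, X, Tt, θ, S, U, θ1, U', q] g)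
    {t : Pool.Agent.H78.RT.T} (h : (mkS ep sp [rI, rK l] g ne9 Q).chk t = true) : False := by
  obtain ⟨q0, dN, dW, dH, dX, dT, dS, dU⟩ := c.qd
  obtain ⟨j, U', hj, u0, u1⟩ := exRow A hc0
  have e := c.eq
  have t0 := th_pos A hj.2.1
  have t1 := th_ltD A hj.2.2
  have hU' : q ∣ U' - th A j := by rw [e]; exact hj.1.mod
  have hG' := hG (th A j) U' t0 (by rw [c.eD]; exact t1) (by rw [c.eN]; exact u0)
    (by rw [c.eN]; exact u1)
  have hO : AllO [N, W, H, D, X, Tt, θ, S, U, th A j, U', q] (Q.map clq) := by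
    refine allO_of q0 (by rfl) fun F hF => ?_
    exact ok11_sound (List.all_eq_true.1 hQ F hF) dN dW dH dX dT dS dU hU'
  have hN : AllNe [N, W, H, D, X, Tt, θ, S, U, th A j, U', q] ne9 := by
    have n1 := c.ne1
    have n2 := c.ne2
    refine ⟨?_, ?_, trivial⟩
    · simp only [dot_cons, dot_nil]; omega
    · simp only [dot_cons, dot_nil]; omega
  have hJ : AllC A [N, W, H, D, X, Tt, θ, S, U, th A j, U', q] [rI, rK l] := by
    refine ⟨⟨i, ?_, c.c.2⟩, ⟨j, ?_, hj.2⟩, trivial⟩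
    · have h1 := c.c.1
      convert h1 using 1 <;> simp only [rI, dot_cons, dot_nil] <;> ring
    · have h1 := hj.1
      have e1 : dot l (1 :: [N, W, H, D, X, Tt, θ, S, U, th A j, U', q]) = A.q * c0 := by
        rw [hl, e]
      convert h1 using 1
      · simp only [rK, dot_cons, dot_nil]; ring
      · exact e1
      · simp only [rK, dot_cons, dot_nil]; ring
  have eN := c.eN
  have eW := c.eW
  have eH := c.eH
  have eD := c.eD
  have eX := c.eX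
  have eT := c.eT
  subst eN eW eH eD eT
  exact run c.F c.hs c.he c.hsg eX hJ hN hO hG' h

end Pool.Agent.H67.ST
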