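import Pool.Agent.H67.ST.P.P0
import Pool.Agent.H67.ST.P.P1
import Pool.Agent.H67.ST.P.P2
import Pool.Agent.H67.ST.P.P3
import Pool.Agent.H67.ST.P.P4
import Pool.Agent.H67.ST.P.P5
import Pool.Agent.H67.ST.P.P6
import Pool.Agent.H67.ST.P.P7

/-!
# No single tie with `ep = 1`, `d < h < w`
-/

namespace Pool.Agent.H67.ST

open Pool.Agent.H78.RT
open Pool.Agent.H78.Tie
open Pool.Agent.H78.Tie.TAp

variable {A : TAp}

/-- there is no single tie with `ep = 1` and `d < h < w` -/
theorem no_p (T : A.Tie) (F : A.Fl) (hs : T.Single) (ht : T.t ≠ 1) (hx0 : T.x ≠ 0)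
    (hx1 : |T.x| < A.h) (hd : A.md < A.h) (hw : A.h < A.w) (he : T.ep = 1) : False := by
  obtain ⟨ep, sp, xs, l, θ₁, S₁, θ₂, S₂, U₂, hl, hx, c, -, -, hp, hm⟩ :=
    exists_Cz T F hs ht hx0 hx1 hd hw
  have hsg := c.hsg
  have hep := c.he
  cases ep
  · rw [he] at hep
    exact absurd hep (by decide)
  have hp' := fun h => hp he h
  have hm' := fun h => hm he h
  clear hp hm
  rw [hsg] at hp' hm'
  cases sp
  · cases xs
    · simp only [sv] at hx hp' hm'
      rcases hm' (by omega) with ⟨b1, b2, b3⟩ | ⟨b1, b2, b3⟩
      · rcases hl with rfl | rfl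
        · exact pmm_UR_0_f c (by linarith) (by linarith) (by linarith)
        · exact pmm_UR_1_f c (by linarith) (by linarith) (by linarith)
      · rcases hl with rfl | rfl
        · exact pmm_LL_0_f c (by linarith) (by linarith) (by linarith)
        · exact pmm_LL_1_f c (by linarith) (by linarith) (by linarith)
    · simp only [sv] at hx hp' hm'
      rcases hp' (by omega) with ⟨b1, b2, b3⟩ | ⟨b1, b2, b3⟩
      · rcases hl with rfl | rfl
        · exact pmp_UL_0_f c (by linarith) (by linarith) (by linarith)
        · exact pmp_UL_1_f c (by linarith) (by linarith) (by linarith)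
      · rcases hl with rfl | rfl
        · exact pmp_LR_0_f c (by linarith) (by linarith) (by linarith)
        · exact pmp_LR_1_f c (by linarith) (by linarith) (by linarith)
  · cases xs
    · simp only [sv] at hx hp' hm'
      rcases hm' (by omega) with ⟨b1, b2, b3⟩ | ⟨b1, b2, b3⟩
      · rcases hl with rfl | rfl
        · exact ppm_UR_0_f c (by linarith) (by linarith) (by linarith)
        · exact ppm_UR_1_f c (by linarith) (by linarith) (by linarith)
      · rcases hl with rfl | rfl
        · exact ppm_LL_0_f c (by linarith) (by linarith) (by linarith)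
        · exact ppm_LL_1_f c (by linarith) (by linarith) (by linarith)
    · simp only [sv] at hx hp' hm'
      rcases hp' (by omega) with ⟨b1, b2, b3⟩ | ⟨b1, b2, b3⟩
      · rcases hl with rfl | rfl
        · exact ppp_UL_0_f c (by linarith) (by linarith) (by linarith)
        · exact ppp_UL_1_f c (by linarith) (by linarith) (by linarith)
      · rcases hl with rfl | rfl
        · exact ppp_LR_0_f c (by linarith) (by linarith) (by linarith)
        · exact ppp_LR_1_f c (by linarith) (by linarith) (by linarith)

end Pool.Agent.H67.ST
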