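import Pool.Agent.H67.ST.Ctx
import Pool.Agent.H23.DT.Ex
import Pool.Agent.H78.SV.TriT

/-!
# Single ties, `d < h < w`: the triangle class of the tie and a class with `U = θ - q` or `U = θ`
-/

namespace Pool.Agent.H67.ST

open Pool.Agent.H78.RT
open Pool.Agent.H78.Tie
open Pool.Agent.H78.Tie.TAp
open Pool.Agent.H81.AP (LF dot dot_nil dot_nil' dot_cons AllNn AllNe)

/-- record of the class with `U = θ - l q` -/
def rM (l : Int) : LR := ⟨[0, 0, 0, 0, 0, 0, 0, 1, 0, 0, 0, 0, -l], [0, 0, 0, 0, 0, 0, 0, 0, 1],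
  [0, 0, 0, 0, 0, 0, 0, 1]⟩

/-- record of the triangle class -/
def rJ : LR := ⟨[0, 0, 0, 0, 0, 0, 0, 0, 0, 0, 0, 1], [0, 0, 0, 0, 0, 0, 0, 0, 0, 0, 1],
  [0, 0, 0, 0, 0, 0, 0, 0, 0, 1]⟩

/-- the form `θ₂ - T`, not zero -/
def neJ : List LF := [[0, 0, 0, 0, 0, 0, -1, 0, 0, 1]]

/-- the forms `F` with `q ∣ F` -/
def okM (es : Int) (F : LF) : Bool :=
  match F with
  | [c, _, _, _, d, _, t, o, _, o', _, u', _] => decide (c + t * es = 0) && decide (d = 0) &&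
      decide (o = 0) && decide (o' + u' = 0)
  | _ => false

theorem okM_sound {es : Int} {F : LF} (h : okM es F = true)
    {q N W H D X Tt th S th' S' U' : ℤ}
    (hN : q ∣ N) (hW : q ∣ W) (hH : q ∣ H) (hX : q ∣ X) (hT : q ∣ Tt - es) (hS : q ∣ S)
    (hS' : q ∣ S') (hU' : q ∣ U' - th') :
    q ∣ dot F [1, N, W, H, D, X, Tt, th, S, th', S', U', q] ∧ F.length = 13 := by
  unfold okM at h
  split at h
  · rename_i c n w h' d x t o s o' s' u' qq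
    simp only [Bool.and_eq_true, decide_eq_true_eq] at h
    obtain ⟨⟨⟨h1, h2⟩, h3⟩, h4⟩ := h
    refine ⟨?_, rfl⟩
    obtain ⟨n1, rfl⟩ := hN
    obtain ⟨w1, rfl⟩ := hW
    obtain ⟨h1', rfl⟩ := hH
    obtain ⟨x1, rfl⟩ := hX
    obtain ⟨t1, ht⟩ := hT
    obtain ⟨s1, rfl⟩ := hS
    obtain ⟨s2, rfl⟩ := hS'
    obtain ⟨v1, hv⟩ := hU'
    simp only [dot_cons, dot_nil]
    refine ⟨n * n1 + w * w1 + h' * h1' + x * x1 + t * t1 + s * s1 + s' * s2 + u' * v1 + qq, ?_⟩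
    linear_combination h1 + D * h2 + th * h3 + t * ht + th' * h4 + u' * hv
  · cases h

/-- context: a single tie with `d < h < w`, a class with `U = θ - l q`, a third class -/
structure Cz (A : TAp) (T : A.Tie) (ep sp xs : Bool) (l N W H D X Tt θ₁ S₁ θ₂ S₂ U₂ q : ℤ) :
    Prop where
  F : A.Fl
  hs : T.Single
  he : T.ep = sv ep
  hsg : A.sg = sv sp
  eN : N = NN A
  eW : W = A.q * A.w
  eH : H = A.q * A.h
  eD : D = A.D
  eX : X = A.q * T.x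
  eT : Tt = th A T.t
  eq : q = A.q
  c1 : ∃ j, IsC A j (θ₁ - l * q) S₁ θ₁
  c2 : ∃ j, IsC A j U₂ S₂ θ₂
  d1 : q ∣ S₁
  d2 : q ∣ S₂
  ne : θ₂ ≠ Tt
  f1 : 6 ≤ q
  f2 : 2 * q ≤ W
  f3 : 2 * q ≤ H
  f4 : 2 * W + q ≤ N
  f5 : 2 * H + q ≤ N
  f6 : 2 * D + 2 ≤ N + q
  f7 : q + sv ep * sv sp ≤ Tt
  f8 : Tt < D
  f15 : D < H
  f16 : H + q ≤ W
  f17 : q ≤ sv xs * X
  f18 : sv xs * X + q ≤ H
  g1 : 0 < θ₁
  g2 : θ₁ < D
  g3 : -N ≤ 2 * S₁
  g4 : 2 * S₁ ≤ N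
  g5 : 0 < θ₂
  g6 : θ₂ < D

variable {A : TAp} {T : A.Tie} {ep sp xs : Bool} {l N W H D X Tt θ₁ S₁ θ₂ S₂ U₂ q : ℤ}

/-- a tree with the classes `t`, `m`, `j` -/
theorem Cz.run (c : Cz A T ep sp xs l N W H D X Tt θ₁ S₁ θ₂ S₂ U₂ q) {g Q : List LF}
    (hQ : Q.all (okM (sv ep * sv sp)) = true)
    (hG : AllNn [N, W, H, D, X, Tt, θ₁, S₁, θ₂, S₂, U₂, q] g)
    {t : Pool.Agent.H78.RT.T} (h : (mkS ep sp [rM l, rJ] g neJ Q).chk t = true) : False := by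
  have e := c.eq
  have dN : q ∣ N := by rw [c.eN, e]; exact ⟨A.p, by unfold NN; ring⟩
  have dW : q ∣ W := by rw [c.eW, e]; exact ⟨_, rfl⟩
  have dH : q ∣ H := by rw [c.eH, e]; exact ⟨_, rfl⟩
  have dX : q ∣ X := by rw [c.eX, e]; exact ⟨_, rfl⟩
  have dT : q ∣ Tt - sv ep * sv sp := by
    have h1 := (Rec.tie T).mod
    have h2 : (A.q : ℤ) ∣ T.ep * (A.q * A.w) := (dvd_mul_right _ _).mul_left _
    have h3 := dvd_sub h2 h1
    rw [c.eT, e, ← c.he, ← c.hsg]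
    rwa [show T.ep * (A.q * A.w) - (T.ep * (A.q * A.w + A.sg) - th A T.t)
      = th A T.t - T.ep * A.sg by ring] at h3
  have dU : q ∣ U₂ - θ₂ := by
    obtain ⟨j, hj⟩ := c.c2
    rw [e]; exact hj.1.mod
  have q0 : 0 < q := by have := c.f1; omega
  have hO : AllO [N, W, H, D, X, Tt, θ₁, S₁, θ₂, S₂, U₂, q] (Q.map clq) := by
    refine allO_of q0 (by rfl) fun F hF => ?_
    exact okM_sound (List.all_eq_true.1 hQ F hF) dN dW dH dX dT c.d1 c.d2 dU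
  have hN : AllNe [N, W, H, D, X, Tt, θ₁, S₁, θ₂, S₂, U₂, q] neJ := by
    have n1 := c.ne
    refine ⟨?_, trivial⟩
    simp only [dot_cons, dot_nil]; omega
  have hJ : AllC A [N, W, H, D, X, Tt, θ₁, S₁, θ₂, S₂, U₂, q] [rM l, rJ] := by
    obtain ⟨j1, h1⟩ := c.c1
    obtain ⟨j2, h2⟩ := c.c2
    refine ⟨⟨j1, ?_, h1.2⟩, ⟨j2, ?_, h2.2⟩, trivial⟩
    · have h1 := h1.1
      convert h1 using 1 <;> simp only [rM, dot_cons, dot_nil] <;> ring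
    · have h2 := h2.1
      convert h2 using 1 <;> simp only [rJ, dot_cons, dot_nil] <;> ring
  have eN := c.eN
  have eW := c.eW
  have eH := c.eH
  have eD := c.eD
  have eX := c.eX
  have eT := c.eT
  subst eN eW eH eD eT
  exact Pool.Agent.H67.ST.run c.F c.hs c.he c.hsg eX hJ hN hO hG h

/-- the facts of a single tie with `d < h < w` and the two classes -/
theorem exists_Cz (T : A.Tie) (F : A.Fl) (hs : T.Single) (ht : T.t ≠ 1) (hx0 : T.x ≠ 0)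
    (hx1 : |T.x| < A.h) (hd : A.md < A.h) (hw : A.h < A.w) : ∃ (ep sp xs : Bool)
    (l θ₁ S₁ θ₂ S₂ U₂ : ℤ), (l = 0 ∨ l = 1) ∧ 0 < sv xs * T.x ∧
    Cz A T ep sp xs l (NN A) (A.q * A.w) (A.q * A.h) A.D (A.q * T.x) (th A T.t) θ₁ S₁ θ₂ S₂ U₂
      A.q ∧ Pool.Agent.H78.SV.TriBox A T U₂ S₂ := by
  have hq := A.q_pos'
  obtain ⟨j₁, s₁, l, h₁, hl, hs1, hs2⟩ := Pool.Agent.H23.DT.exV A (c := 1) (by norm_num)
    (by have := A.w2; have := A.hw; omega)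
  obtain ⟨j₂, U₂, S₂, h₂, hne, hB⟩ := Pool.Agent.H78.SV.triT F T hx0 hx1 (by omega)
  obtain ⟨ep, hep⟩ : ∃ ep : Bool, T.ep = sv ep := by
    rcases T.hep with h | h
    · exact ⟨true, h⟩
    · exact ⟨false, h⟩
  obtain ⟨sp, hsg⟩ : ∃ sp : Bool, A.sg = sv sp := by
    rcases A.hsg with h | h
    · exact ⟨true, h⟩
    · exact ⟨false, h⟩
  obtain ⟨xs, hxs⟩ : ∃ xs : Bool, |T.x| = sv xs * T.x := by
    rcases le_total 0 T.x with h | h
    · exact ⟨true, by rw [abs_of_nonneg h]; simp [sv]⟩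
    · exact ⟨false, by rw [abs_of_nonpos h]; simp [sv]⟩
  have hx2 : 0 < sv xs * T.x := by rw [← hxs]; exact abs_pos.2 hx0
  have hx3 : sv xs * T.x < A.h := by rw [← hxs]; exact hx1
  refine ⟨ep, sp, xs, l, th A j₁, A.q * s₁, th A j₂, S₂, U₂, by omega, hx2, ?_, hB⟩
  have x0 := mul_le_mul_of_nonneg_left (show (1 : ℤ) ≤ sv xs * T.x by omega) hq.le
  have x1 := mul_le_mul_of_nonneg_left (show sv xs * T.x + 1 ≤ A.h by omega) hq.le
  have y1 := mul_le_mul_of_nonneg_left (show (A.h : ℤ) + 1 ≤ A.w by omega) hq.le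
  have y2 := mul_le_mul_of_nonneg_left (show A.md + 1 ≤ (A.h : ℤ) by omega) hq.le
  have y3 := mul_le_mul_of_nonneg_left hs1 hq.le
  have y4 := mul_le_mul_of_nonneg_left hs2 hq.le
  have eD : A.D = A.q * A.md + A.fd := rfl
  have eN : NN A = A.q * A.p := by unfold NN; ring
  have hfd := A.hfd2
  have d2 : (A.q : ℤ) ∣ S₂ := by
    obtain ⟨s, hs, -⟩ := h₂.1.2.1
    exact ⟨s, hs⟩
  refine ⟨F, hs, hep, hsg, rfl, rfl, rfl, rfl, rfl, rfl, rfl, ⟨j₁, ?_⟩, ⟨j₂, h₂⟩,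
    dvd_mul_right _ _, d2, ?_, q6 A, W2 A, H2 A, NW A, NH A, ND A, ?_, th_ltD A T.tp, ?_, ?_,
    ?_, ?_, th_pos A h₁.2.1, th_ltD A h₁.2.2, ?_, ?_, th_pos A h₂.2.1, th_ltD A h₂.2.2⟩
  · rwa [mul_comm l]
  · intro h
    rcases lt_or_gt_of_ne hne with h1 | h1
    · have := th_lt A h1; omega
    · have := th_lt A h1; omega
  · have := tie_th T ht
    rwa [hep, hsg] at this
  · linarith
  · linarith
  · linarith
  · linarith
  · rw [eN]; linarith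
  · rw [eN]; linarith

end Pool.Agent.H67.ST
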