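import Pool.Agent.H67.ST.Tri

/-!
# Single ties, `d < h < w`: four classes
-/

namespace Pool.Agent.H67.ST

open Pool.Agent.H78.RT
open Pool.Agent.H78.Tie
open Pool.Agent.H78.Tie.TAp
open Pool.Agent.H81.AP (LF dot dot_nil dot_nil' dot_cons AllNn AllNe)

/-- record of the class with `U = θ - l q`, long environment -/
def rM4 (l : Int) : LR := ⟨[0, 0, 0, 0, 0, 0, 0, 1, 0, 0, 0, 0, 0, 0, -l],
  [0, 0, 0, 0, 0, 0, 0, 0, 1], [0, 0, 0, 0, 0, 0, 0, 1]⟩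

/-- record of the class of row `a w + b h` -/
def rK4 (a b : Int) : LR := ⟨[0, 0, 0, 0, 0, 0, 0, 0, 0, 0, 0, 0, 0, 1], [0, 0, a, b],
  [0, 0, 0, 0, 0, 0, 0, 0, 0, 0, 0, 0, 1]⟩

/-- the forms `F` with `q ∣ F` -/
def ok4 (es : Int) (F : LF) : Bool :=
  match F with
  | [c, _, _, _, d, _, t, o, _, o', _, u', o3, u3, _] => decide (c + t * es = 0) &&
      decide (d = 0) && decide (o = 0) && decide (o' + u' = 0) && decide (o3 + u3 = 0)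
  | _ => false

theorem ok4_sound {es : Int} {F : LF} (h : ok4 es F = true)
    {q N W H D X Tt th S th' S' U' th3 U3 : ℤ}
    (hN : q ∣ N) (hW : q ∣ W) (hH : q ∣ H) (hX : q ∣ X) (hT : q ∣ Tt - es) (hS : q ∣ S)
    (hS' : q ∣ S') (hU' : q ∣ U' - th') (hU3 : q ∣ U3 - th3) :
    q ∣ dot F [1, N, W, H, D, X, Tt, th, S, th', S', U', th3, U3, q] ∧ F.length = 15 := by
  unfold ok4 at h
  split at h
  · rename_i c n w h' d x t o s o' s' u' o3 u3 qq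
    simp only [Bool.and_eq_true, decide_eq_true_eq] at h
    obtain ⟨⟨⟨⟨h1, h2⟩, h3⟩, h4⟩, h5⟩ := h
    refine ⟨?_, rfl⟩
    obtain ⟨n1, rfl⟩ := hN
    obtain ⟨w1, rfl⟩ := hW
    obtain ⟨h1', rfl⟩ := hH
    obtain ⟨x1, rfl⟩ := hX
    obtain ⟨t1, ht⟩ := hT
    obtain ⟨s1, rfl⟩ := hS
    obtain ⟨s2, rfl⟩ := hS'
    obtain ⟨v1, hv⟩ := hU'
    obtain ⟨v3, hv3⟩ := hU3
    simp only [dot_cons, dot_nil]
    refine ⟨n * n1 + w * w1 + h' * h1' + x * x1 + t * t1 + s * s1 + s' * s2 + u' * v1 + u3 * v3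
      + qq, ?_⟩
    linear_combination h1 + D * h2 + th * h3 + t * ht + th' * h4 + u' * hv + th3 * h5 + u3 * hv3
  · cases h

/-- context with a class of row `a w + b h` -/
structure C4 (A : TAp) (T : A.Tie) (ep sp xs : Bool)
    (l a b N W H D X Tt θ₁ S₁ θ₂ S₂ U₂ θ₃ U₃ q : ℤ) : Prop where
  c : Cz A T ep sp xs l N W H D X Tt θ₁ S₁ θ₂ S₂ U₂ q
  c3 : ∃ j, IsC A j U₃ (a * W + b * H) θ₃
  g7 : 0 < θ₃
  g8 : θ₃ < D
  g9 : -N ≤ 2 * U₃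
  g10 : 2 * U₃ ≤ N

variable {A : TAp} {T : A.Tie} {ep sp xs : Bool}
  {l a b N W H D X Tt θ₁ S₁ θ₂ S₂ U₂ θ₃ U₃ q : ℤ}

/-- a tree with the classes `t`, `m`, `j`, `k` -/
theorem C4.run (d : C4 A T ep sp xs l a b N W H D X Tt θ₁ S₁ θ₂ S₂ U₂ θ₃ U₃ q) {g Q : List LF}
    (hQ : Q.all (ok4 (sv ep * sv sp)) = true)
    (hG : AllNn [N, W, H, D, X, Tt, θ₁, S₁, θ₂, S₂, U₂, θ₃, U₃, q] g)
    {t : Pool.Agent.H78.RT.T} (h : (mkS ep sp [rM4 l, rJ, rK4 a b] g neJ Q).chk t = true) :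
    False := by
  have c := d.c
  have e := c.eq
  have dN : q ∣ N := by rw [c.eN, e]; exact ⟨A.p, by unfold NN; ring⟩
  have dW : q ∣ W := by rw [c.eW, e]; exact ⟨_, rfl⟩
  have dH : q ∣ H := by rw [c.eH, e]; exact ⟨_, rfl⟩
  have dX : q ∣ X := by rw [c.eX, e]; exact ⟨_, rfl⟩
  have dT : q ∣ Tt - sv ep * sv sp := by
    have h1 := (Rec.tie T).mod
    have h2 : (A.q : ℤ) ∣ T.ep * (A.q * A.w) := (dvd_mul_right _ _).mul_left _
    have h3 := dvd_sub h2 h1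
    rw [c.eT, e, ← c.he, ← c.hsg]
    rwa [show T.ep * (A.q * A.w) - (T.ep * (A.q * A.w + A.sg) - th A T.t)
      = th A T.t - T.ep * A.sg by ring] at h3
  have dU : q ∣ U₂ - θ₂ := by
    obtain ⟨j, hj⟩ := c.c2
    rw [e]; exact hj.1.mod
  have dU3 : q ∣ U₃ - θ₃ := by
    obtain ⟨j, hj⟩ := d.c3
    rw [e]; exact hj.1.mod
  have q0 : 0 < q := by have := c.f1; omega
  have hO : AllO [N, W, H, D, X, Tt, θ₁, S₁, θ₂, S₂, U₂, θ₃, U₃, q] (Q.map clq) := by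
    refine allO_of q0 (by rfl) fun F hF => ?_
    exact ok4_sound (List.all_eq_true.1 hQ F hF) dN dW dH dX dT c.d1 c.d2 dU dU3
  have hN : AllNe [N, W, H, D, X, Tt, θ₁, S₁, θ₂, S₂, U₂, θ₃, U₃, q] neJ := by
    have n1 := c.ne
    refine ⟨?_, trivial⟩
    simp only [dot_cons, dot_nil]; omega
  have hJ : AllC A [N, W, H, D, X, Tt, θ₁, S₁, θ₂, S₂, U₂, θ₃, U₃, q]
      [rM4 l, rJ, rK4 a b] := by
    obtain ⟨j1, h1⟩ := c.c1
    obtain ⟨j2, h2⟩ := c.c2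
    obtain ⟨j3, h3⟩ := d.c3
    refine ⟨⟨j1, ?_, h1.2⟩, ⟨j2, ?_, h2.2⟩, ⟨j3, ?_, h3.2⟩, trivial⟩
    · have h1 := h1.1
      convert h1 using 1 <;> simp only [rM4, dot_cons, dot_nil] <;> ring
    · have h2 := h2.1
      convert h2 using 1 <;> simp only [rJ, dot_cons, dot_nil] <;> ring
    · have h3 := h3.1
      convert h3 using 1 <;> simp only [rK4, dot_cons, dot_nil] <;> ring
  have eN := c.eN
  have eW := c.eW
  have eH := c.eH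
  have eD := c.eD
  have eX := c.eX
  have eT := c.eT
  subst eN eW eH eD eT
  exact Pool.Agent.H67.ST.run c.F c.hs c.he c.hsg eX hJ hN hO hG h

/-- a class of row `h - w` -/
theorem exists_C4 {T : A.Tie} (hw : A.h < A.w)
    (c : Cz A T ep sp xs l (NN A) (A.q * A.w) (A.q * A.h) A.D (A.q * T.x) (th A T.t)
      θ₁ S₁ θ₂ S₂ U₂ A.q) : ∃ θ₃ U₃, C4 A T ep sp xs l (-1) 1 (NN A) (A.q * A.w) (A.q * A.h) A.D
      (A.q * T.x) (th A T.t) θ₁ S₁ θ₂ S₂ U₂ θ₃ U₃ A.q := by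
  have hp : ¬ (A.p : ℤ) ∣ ((A.h : ℤ) - A.w) := by
    intro h
    have h1 := (dvd_neg (a := (A.p : ℤ))).2 h
    have := Int.le_of_dvd (by omega) h1
    have := A.w2
    omega
  obtain ⟨j, U, h, u0, u1⟩ := exRow A hp
  refine ⟨th A j, U, c, ⟨j, ?_⟩, th_pos A h.2.1, th_ltD A h.2.2, u0, u1⟩
  convert h using 1; ring

/-- a class of row `w - h` -/
theorem exists_C4' {T : A.Tie} (hw : A.h < A.w)
    (c : Cz A T ep sp xs l (NN A) (A.q * A.w) (A.q * A.h) A.D (A.q * T.x) (th A T.t)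
      θ₁ S₁ θ₂ S₂ U₂ A.q) : ∃ θ₃ U₃, C4 A T ep sp xs l 1 (-1) (NN A) (A.q * A.w) (A.q * A.h) A.D
      (A.q * T.x) (th A T.t) θ₁ S₁ θ₂ S₂ U₂ θ₃ U₃ A.q := by
  have hp : ¬ (A.p : ℤ) ∣ ((A.w : ℤ) - A.h) := by
    intro h
    have := Int.le_of_dvd (by omega) h
    have := A.w2
    omega
  obtain ⟨j, U, h, u0, u1⟩ := exRow A hp
  refine ⟨th A j, U, c, ⟨j, ?_⟩, th_pos A h.2.1, th_ltD A h.2.2, u0, u1⟩
  convert h using 1; ring

end Pool.Agent.H67.ST
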